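import Pool.Agent.H46.Tn.H
set_option autoImplicit false
open Pool.Agent.H46.Tn Filter

namespace Pool.Agent.Results.MP_6428c8_nt.Both

/-- There is a real S-number for which the lim sup is strictly below the sup, both for Mahler's
`w_n` and for Koksma's `w_n^*`. -/
theorem result : ∃ ξ : ℝ, Transcendental ℚ ξ ∧ limsup (fun n : ℕ => wE n ξ / n) atTop < ⊤ ∧
    limsup (fun n : ℕ => (wE n ξ + 1) / (n + 1)) atTop <
      ⨆ (n : ℕ) (_ : 1 ≤ n), (wE n ξ + 1) / (n + 1) ∧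
    limsup (fun n : ℕ => (wsE n ξ + 1) / (n + 1)) atTop <
      ⨆ (n : ℕ) (_ : 1 ≤ n), (wsE n ξ + 1) / (n + 1) := by
  obtain ⟨ξ, M, B, α, G⟩ : ∃ ξ M B α, Good (fun _ => 19) (fun _ => 23) ξ M B α :=
    main _ _ (by simp) (by simp)
  have U : ∀ n, 41 ≤ n → wE n ξ ≤ (10800 * n : ℝ) ∧ wsE n ξ ≤ (10800 * n : ℝ) := fun n h => by
    exact_mod_cast (G.up (N := n) (v := 10800 * n) (by omega) le_rfl fun _ _ => by omega).wE
  have a := lsup_le (by norm_num) 41 fun n h => (U n h).1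
  have b := lsup_le (by norm_num) 41 fun n h => (U n h).2
  have l := G.low (E := 23) (w := 19000 * ((19 : ℕ) + 1)) (by norm_num) (by norm_num) (by norm_num)
    fun K => ⟨K, le_rfl, rfl, rfl⟩
  have c : ((10800 : ℝ) : EReal) < (19000 : ℝ) := EReal.coe_lt_coe (by norm_num)
  exact ⟨ξ, trQ fun N h => ⟨2 ^ 23 * N, G.up h (by omega) fun _ _ => by omega⟩,
    a.1.trans_lt (EReal.coe_lt_top _),
    (a.2.trans_lt c).trans_le (le_iSup₂_of_le 19 (by norm_num) (le_q (le_wE l.1))),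
    (b.2.trans_lt c).trans_le (le_iSup₂_of_le 19 (by norm_num) (le_q (le_wsE l.2)))⟩

end Pool.Agent.Results.MP_6428c8_nt.Both
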